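import Pool.Agent.MP_8214d2_lc.Main

namespace Pool.Agent.Results.MP_8214d2_lc.NotTukeyIdempotent

open Pool.Agent.MP_8214d2_lc

/-- **Q1, full answer (yes, outright in ZFC).** There is an ideal `I` on `ω` such that `P(ω)/I`
is atomless, adds no reals, and every condition forces that the generic ultrafilter `U` is not
Tukey equivalent to `U · U`. -/
theorem result : ∃ I : Set (Set ℕ), IsIdeal I ∧ Atomless I ∧ NoNewReals I ∧
    ∀ p : Pos I, fNot (fAnd (fTukeyLE (fProd (genU I)) (genU I))
      (fTukeyLE (genU I) (fProd (genU I)))) p := by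
  obtain ⟨I, h1, h2, h3, h4⟩ := main
  exact ⟨I, h1, h2, h3, fun p q _ h => h4 q h.1⟩

end Pool.Agent.Results.MP_8214d2_lc.NotTukeyIdempotent
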